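import Pool.Agent.R623.AF.Stm
import Pool.Agent.H440R2.Schwarz

set_option autoImplicit false

/-! AF-SCH (helper790): Schwarz lemma for interpolation determinants over `ℂ`, binomials. -/

namespace Pool.Agent.R623.AF

open Finset

namespace SCHaux

lemma norm_det_le_prod {ι : Type*} [Fintype ι] [DecidableEq ι] (M : Matrix ι ι ℂ) (w : ι → ℝ)
    (h : ∀ i j, ‖M i j‖ ≤ w i) :
    ‖M.det‖ ≤ (Fintype.card ι).factorial * ∏ i, w i := by
  rw [Matrix.det_apply]
  calc ‖∑ σ : Equiv.Perm ι, Equiv.Perm.sign σ • ∏ i, M (σ i) i‖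
      ≤ ∑ σ : Equiv.Perm ι, ‖Equiv.Perm.sign σ • ∏ i, M (σ i) i‖ := norm_sum_le _ _
    _ ≤ ∑ _σ : Equiv.Perm ι, ∏ i, w i := by
        apply sum_le_sum
        intro σ _
        have h1 : ‖Equiv.Perm.sign σ • ∏ i, M (σ i) i‖ = ∏ i, ‖M (σ i) i‖ := by
          rcases Int.units_eq_one_or (Equiv.Perm.sign σ) with h | h <;>
            simp [h]
        rw [h1]
        calc ∏ i, ‖M (σ i) i‖ ≤ ∏ i, w (σ i) :=
              prod_le_prod (fun _ _ => norm_nonneg _) (fun i _ => h _ _)
          _ = ∏ i, w i := Equiv.prod_comp σ w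
    _ = (Fintype.card ι).factorial * ∏ i, w i := by
        rw [sum_const, card_univ, Fintype.card_perm, nsmul_eq_mul]

/-- Finite version of the Schwarz lemma for interpolation determinants. -/
lemma schwarz_finite {ι κ : Type*} [Fintype ι] [DecidableEq ι] [Fintype κ]
    (A : ι → κ → ℂ) (u n : ι → κ → ℕ) (x y : ι → ℂ) (X Z ρ : ℝ)
    (hX : 0 ≤ X) (hZ : 0 ≤ Z) (hρ : 1 ≤ ρ) (hx : ∀ j, ‖x j‖ ≤ X) (hy : ∀ j, ‖y j‖ ≤ Z) :
    ‖(Matrix.of fun i j => ∑ r, A i r * (x j ^ u i r * y j ^ n i r)).det‖ *
      ρ ^ (Fintype.card ι * (Fintype.card ι - 1) / 2) ≤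
      (Fintype.card ι).factorial *
        ∏ i, ∑ r, ‖A i r‖ * ((ρ * X) ^ u i r * (ρ ^ Fintype.card ι * Z) ^ n i r) := by
  classical
  set N := Fintype.card ι with hN
  have hρ0 : 0 < ρ := lt_of_lt_of_le one_pos hρ
  -- expansion
  have hexp : (Matrix.of fun i j => ∑ r, A i r * (x j ^ u i r * y j ^ n i r)).det
      = ∑ f : ι → κ, (∏ i, A i (f i)) *
          (Matrix.of fun i j => x j ^ u i (f i) * y j ^ n i (f i)).det := by
    have h1 := MultilinearMap.map_sum
      (Matrix.detRowAlternating (n := ι) (R := ℂ)).toMultilinearMap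
      (fun (i : ι) (r : κ) => A i r • (fun j => x j ^ u i r * y j ^ n i r))
    have h2 : (Matrix.of fun i j => ∑ r, A i r * (x j ^ u i r * y j ^ n i r)).det
        = (Matrix.detRowAlternating (n := ι) (R := ℂ)).toMultilinearMap
            (fun i => ∑ r, A i r • (fun j => x j ^ u i r * y j ^ n i r)) := by
      show Matrix.det _ = Matrix.det _
      congr 1
      ext i j
      simp [Finset.sum_apply]
    rw [h2, h1]
    apply sum_congr rfl
    intro f _
    rw [MultilinearMap.map_smul_univ]
    rfl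
  rw [hexp]
  have hterm : ∀ f : ι → κ,
      ‖(∏ i, A i (f i)) * (Matrix.of fun i j => x j ^ u i (f i) * y j ^ n i (f i)).det‖ *
        ρ ^ (N * (N - 1) / 2) ≤
      N.factorial * ∏ i, (‖A i (f i)‖ * ((ρ * X) ^ u i (f i) * (ρ ^ N * Z) ^ n i (f i))) := by
    intro f
    have hprodnn : 0 ≤ ∏ i, (‖A i (f i)‖ * ((ρ * X) ^ u i (f i) * (ρ ^ N * Z) ^ n i (f i))) := by
      apply prod_nonneg
      intro i _
      positivity
    by_cases hinj : Function.Injective (fun i => (u i (f i), n i (f i)))
    · have hdet := norm_det_le_prod (Matrix.of fun i j => x j ^ u i (f i) * y j ^ n i (f i))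
        (fun i => X ^ u i (f i) * Z ^ n i (f i)) (by
          intro i j
          simp only [Matrix.of_apply, norm_mul, norm_pow]
          apply mul_le_mul
          · exact pow_le_pow_left₀ (norm_nonneg _) (hx j) _
          · exact pow_le_pow_left₀ (norm_nonneg _) (hy j) _
          · positivity
          · positivity)
      have hw := Pool.Agent.H440R2.weight_sum_ge (fun i => u i (f i)) (fun i => n i (f i)) hinj
      rw [← hN] at hw hdet
      have hpow : ρ ^ (N * (N - 1) / 2) ≤ ρ ^ (∑ i, (u i (f i) + N * n i (f i))) :=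
        pow_le_pow_right₀ hρ hw
      have hre : ∏ i, (‖A i (f i)‖ * ((ρ * X) ^ u i (f i) * (ρ ^ N * Z) ^ n i (f i)))
          = (∏ i, ‖A i (f i)‖) * (∏ i, (X ^ u i (f i) * Z ^ n i (f i))) *
            ρ ^ (∑ i, (u i (f i) + N * n i (f i))) := by
        rw [← prod_pow_eq_pow_sum, ← prod_mul_distrib, ← prod_mul_distrib]
        apply prod_congr rfl
        intro i _
        rw [mul_pow, mul_pow, pow_add, pow_mul]
        ring
      rw [hre, norm_mul, norm_prod]
      have hAn : 0 ≤ ∏ i, ‖A i (f i)‖ := prod_nonneg (fun _ _ => norm_nonneg _)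
      calc (∏ i, ‖A i (f i)‖) * ‖(Matrix.of fun i j => x j ^ u i (f i) * y j ^ n i (f i)).det‖ *
            ρ ^ (N * (N - 1) / 2)
          ≤ (∏ i, ‖A i (f i)‖) * (N.factorial * ∏ i, (X ^ u i (f i) * Z ^ n i (f i))) *
            ρ ^ (∑ i, (u i (f i) + N * n i (f i))) := by
            apply mul_le_mul
            · exact mul_le_mul_of_nonneg_left hdet hAn
            · exact hpow
            · positivity
            · apply mul_nonneg hAn
              apply mul_nonneg (by positivity)
              apply prod_nonneg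
              intro i _
              positivity
        _ = _ := by ring
    · -- two equal rows
      have hz : (Matrix.of fun i j => x j ^ u i (f i) * y j ^ n i (f i)).det = 0 := by
        simp only [Function.Injective, not_forall] at hinj
        obtain ⟨i, i', hii, hne⟩ := hinj
        apply Matrix.det_zero_of_row_eq hne
        ext j
        simp only [Prod.mk.injEq] at hii
        simp [Matrix.of_apply, hii.1, hii.2]
      rw [hz]
      simp only [mul_zero, norm_zero, zero_mul]
      positivity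
  calc ‖∑ f : ι → κ, (∏ i, A i (f i)) *
          (Matrix.of fun i j => x j ^ u i (f i) * y j ^ n i (f i)).det‖ * ρ ^ (N * (N - 1) / 2)
      ≤ (∑ f : ι → κ, ‖(∏ i, A i (f i)) *
          (Matrix.of fun i j => x j ^ u i (f i) * y j ^ n i (f i)).det‖) *
            ρ ^ (N * (N - 1) / 2) := by
        apply mul_le_mul_of_nonneg_right (norm_sum_le _ _)
        positivity
    _ = ∑ f : ι → κ, ‖(∏ i, A i (f i)) *
          (Matrix.of fun i j => x j ^ u i (f i) * y j ^ n i (f i)).det‖ *
            ρ ^ (N * (N - 1) / 2) := by rw [sum_mul]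
    _ ≤ ∑ f : ι → κ, N.factorial *
          ∏ i, (‖A i (f i)‖ * ((ρ * X) ^ u i (f i) * (ρ ^ N * Z) ^ n i (f i))) :=
        sum_le_sum (fun f _ => hterm f)
    _ = N.factorial * ∑ f : ι → κ,
          ∏ i, (‖A i (f i)‖ * ((ρ * X) ^ u i (f i) * (ρ ^ N * Z) ^ n i (f i))) := by
        rw [mul_sum]
    _ = _ := by
        congr 1
        rw [Finset.prod_univ_sum, Fintype.piFinset_univ]

/-- the binomial polynomials -/
noncomputable def Q : ℕ → Polynomial ℝ
  | 0 => 1
  | j + 1 => Polynomial.C (1 / ((j : ℝ) + 1)) * ((Polynomial.X - Polynomial.C (j : ℝ)) * Q j)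

/-- their majorants -/
noncomputable def R : ℕ → Polynomial ℝ
  | 0 => 1
  | j + 1 => Polynomial.C (1 / ((j : ℝ) + 1)) * ((Polynomial.X + Polynomial.C (j : ℝ)) * R j)

lemma Q_deg (j : ℕ) : (Q j).natDegree ≤ j := by
  induction j with
  | zero => simp [Q]
  | succ j ih =>
    rw [Q]
    refine (Polynomial.natDegree_C_mul_le _ _).trans ?_
    refine Polynomial.natDegree_mul_le.trans ?_
    have := Polynomial.natDegree_X_sub_C_le (j : ℝ)
    omega

lemma R_deg (j : ℕ) : (R j).natDegree ≤ j := by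
  induction j with
  | zero => simp [R]
  | succ j ih =>
    rw [R]
    refine (Polynomial.natDegree_C_mul_le _ _).trans ?_
    refine Polynomial.natDegree_mul_le.trans ?_
    have : (Polynomial.X + Polynomial.C (j : ℝ)).natDegree = 1 := Polynomial.natDegree_X_add_C _
    omega

lemma Q_eval (j t : ℕ) : (Q j).eval (t : ℝ) = (t.choose j : ℝ) := by
  induction j with
  | zero => simp [Q]
  | succ j ih =>
    rw [Q]
    simp only [Polynomial.eval_mul, Polynomial.eval_C, Polynomial.eval_sub, Polynomial.eval_X, ih]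
    have h1 := Nat.choose_succ_right_eq t j
    have h2 : (t.choose (j + 1) : ℝ) * ((j : ℝ) + 1) = (t.choose j : ℝ) * ((t : ℝ) - j) := by
      by_cases h : j ≤ t
      · have h3 : ((t.choose (j + 1) * (j + 1) : ℕ) : ℝ) = ((t.choose j * (t - j) : ℕ) : ℝ) := by
          rw [h1]
        push_cast [Nat.cast_sub h] at h3
        exact h3
      · rw [Nat.choose_eq_zero_of_lt (by omega : t < j),
          Nat.choose_eq_zero_of_lt (by omega : t < j + 1)]
        simp
    have h4 : (j : ℝ) + 1 ≠ 0 := by positivity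
    field_simp
    linarith

lemma coeff_le (j : ℕ) : ∀ s, |(Q j).coeff s| ≤ (R j).coeff s := by
  induction j with
  | zero =>
    intro s
    simp only [Q, R, Polynomial.coeff_one]
    split_ifs <;> simp
  | succ j ih =>
    intro s
    have hj : (0 : ℝ) ≤ j := Nat.cast_nonneg j
    rw [Q, R, Polynomial.coeff_C_mul, Polynomial.coeff_C_mul, abs_mul,
      abs_of_nonneg (by positivity : (0 : ℝ) ≤ 1 / ((j : ℝ) + 1))]
    refine mul_le_mul_of_nonneg_left ?_ (by positivity)
    rw [sub_mul, add_mul, Polynomial.coeff_sub, Polynomial.coeff_add, Polynomial.coeff_C_mul,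
      Polynomial.coeff_C_mul]
    have h2 : |(j : ℝ) * (Q j).coeff s| ≤ (j : ℝ) * (R j).coeff s := by
      rw [abs_mul, abs_of_nonneg hj]
      exact mul_le_mul_of_nonneg_left (ih s) hj
    cases s with
    | zero =>
      rw [Polynomial.coeff_X_mul_zero, Polynomial.coeff_X_mul_zero, zero_sub, abs_neg, zero_add]
      exact h2
    | succ s =>
      rw [Polynomial.coeff_X_mul, Polynomial.coeff_X_mul]
      exact (abs_sub _ _).trans (add_le_add (ih s) h2)

lemma R_eval (j : ℕ) {u : ℝ} (hu : 0 ≤ u) : 0 ≤ (R j).eval u ∧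
    (R j).eval u ≤ (u + j) ^ j / j.factorial := by
  induction j with
  | zero => simp [R]
  | succ j ih =>
    rw [R]
    simp only [Polynomial.eval_mul, Polynomial.eval_C, Polynomial.eval_add, Polynomial.eval_X]
    obtain ⟨h1, h2⟩ := ih
    refine ⟨by positivity, ?_⟩
    have hj : (0 : ℝ) ≤ j := Nat.cast_nonneg j
    calc 1 / ((j : ℝ) + 1) * ((u + j) * (R j).eval u)
        ≤ 1 / ((j : ℝ) + 1) * ((u + j) * ((u + j) ^ j / j.factorial)) := by gcongr
      _ = (u + j) ^ (j + 1) / ((j + 1).factorial : ℝ) := by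
          rw [Nat.factorial_succ]
          push_cast
          field_simp
          ring
      _ ≤ _ := by
          gcongr
          push_cast
          linarith

lemma binom_bound (j p : ℕ) (hp : 1 ≤ p) {u : ℝ} (hu : 0 ≤ u) (D : ℕ) :
    ∑ s ∈ range D, |(Q j).coeff s| * u ^ s ≤ (p : ℝ) ^ j * Real.exp ((u + j) / p) := by
  have hp0 : (0 : ℝ) < p := by exact_mod_cast hp
  have h0 : ∀ s, 0 ≤ (R j).coeff s := fun s => (abs_nonneg _).trans (coeff_le j s)
  calc ∑ s ∈ range D, |(Q j).coeff s| * u ^ s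
      ≤ ∑ s ∈ range D, (R j).coeff s * u ^ s :=
        sum_le_sum fun s _ => mul_le_mul_of_nonneg_right (coeff_le j s) (by positivity)
    _ ≤ ∑ s ∈ range (max D (j + 1)), (R j).coeff s * u ^ s := by
        refine sum_le_sum_of_subset_of_nonneg (range_mono (le_max_left _ _)) ?_
        intro s _ _
        exact mul_nonneg (h0 s) (by positivity)
    _ = (R j).eval u := by
        rw [Polynomial.eval_eq_sum_range' (lt_of_lt_of_le (Nat.lt_succ_of_le (R_deg j))
          (le_max_right D (j + 1)))]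
    _ ≤ (u + j) ^ j / j.factorial := (R_eval j hu).2
    _ = (p : ℝ) ^ j * (((u + j) / p) ^ j / j.factorial) := by
        rw [div_pow]
        field_simp
    _ ≤ _ := by
        refine mul_le_mul_of_nonneg_left ?_ (by positivity)
        exact Real.pow_div_factorial_le_exp _ (by positivity) _

end SCHaux

open SCHaux in
theorem SCH : S_SCH := by
  classical
  intro ι _ _ j l t y c p X Z hp hZ ht hy
  set ρ : ℝ := Real.exp 1 with hρdef
  have hρ : 1 ≤ ρ := Real.one_le_exp zero_le_one
  have hρ0 : 0 < ρ := lt_of_lt_of_le one_pos hρ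
  set N := Fintype.card ι with hN
  set D : ℕ := Finset.univ.sup j + 1 with hD
  have hjD : ∀ i, (Q (j i)).natDegree < D := by
    intro i
    have h1 : j i ≤ Finset.univ.sup j := Finset.le_sup (Finset.mem_univ i)
    have h2 := Q_deg (j i)
    omega
  have hX : (0 : ℝ) ≤ X := Nat.cast_nonneg X
  have hch : ∀ i i', ((t i').choose (j i) : ℂ) =
      ∑ s ∈ range D, (((Q (j i)).coeff s : ℝ) : ℂ) * (t i' : ℂ) ^ s := by
    intro i i'
    have h1 := Q_eval (j i) (t i')
    rw [Polynomial.eval_eq_sum_range' (hjD i)] at h1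
    have h2 : (((t i').choose (j i) : ℝ) : ℂ) = ((∑ s ∈ range D, (Q (j i)).coeff s *
        (t i' : ℝ) ^ s : ℝ) : ℂ) := by rw [h1]
    push_cast at h2
    exact h2
  set E : ℕ → Matrix ι ι ℂ := fun T => Matrix.of fun i i' =>
    ((t i').choose (j i) : ℂ) * ((∑ m ∈ range T, (l i * (c * t i')) ^ m / m.factorial) *
      (∑ m ∈ range T, (l i * y i') ^ m / m.factorial)) with hE
  have hexpt : ∀ z : ℂ, Filter.Tendsto (fun T => ∑ m ∈ range T, z ^ m / m.factorial)
      Filter.atTop (nhds (Complex.exp z)) := by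
    intro z
    have := (NormedSpace.expSeries_div_hasSum_exp z).tendsto_sum_nat
    rwa [← Complex.exp_eq_exp_ℂ] at this
  have hlim : Filter.Tendsto (fun T => (E T).det) Filter.atTop
      (nhds (Matrix.of fun i i' => ((t i').choose (j i) : ℂ) *
      Complex.exp (l i * (c * t i' + y i'))).det) := by
    have hcont : Continuous (fun M : Matrix ι ι ℂ => M.det) := continuous_id.matrix_det
    apply (hcont.tendsto _).comp
    refine tendsto_pi_nhds.mpr fun i => tendsto_pi_nhds.mpr fun i' => ?_
    simp only [hE, Matrix.of_apply]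
    have : Complex.exp (l i * (c * t i' + y i')) =
        Complex.exp (l i * (c * t i')) * Complex.exp (l i * y i') := by
      rw [← Complex.exp_add]; ring_nf
    rw [this]
    exact Filter.Tendsto.const_mul _ ((hexpt _).mul (hexpt _))
  have hbound : ∀ T, ‖(E T).det‖ * ρ ^ (N * (N - 1) / 2) ≤ N.factorial *
        ∏ i, ((p : ℝ) ^ j i * Real.exp ((ρ * X + j i) / p) *
          Real.exp (l i * (‖c‖ * (ρ * X) + ρ ^ N * Z))) := by
    intro T
    have hEq : E T = Matrix.of fun i i' => ∑ r : Fin D × Fin T × Fin T,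
        ((((Q (j i)).coeff r.1 : ℝ) : ℂ) * ((l i : ℂ) ^ ((r.2.1 : ℕ) + (r.2.2 : ℕ)) *
          c ^ (r.2.1 : ℕ) / ((r.2.1 : ℕ).factorial * (r.2.2 : ℕ).factorial))) *
          ((t i' : ℂ) ^ ((r.1 : ℕ) + (r.2.1 : ℕ)) * y i' ^ (r.2.2 : ℕ)) := by
      ext i i'
      simp only [hE, Matrix.of_apply]
      rw [hch, Finset.sum_range, Finset.sum_range, Finset.sum_range, Finset.sum_mul_sum,
        ← Finset.sum_product', Finset.sum_mul_sum, ← Finset.sum_product']
      apply sum_congr rfl
      intro r _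
      simp only [mul_pow, pow_add]
      field_simp
    rw [hEq]
    refine (schwarz_finite (κ := Fin D × Fin T × Fin T)
      (fun i r => (((Q (j i)).coeff r.1 : ℝ) : ℂ) * ((l i : ℂ) ^ ((r.2.1 : ℕ) + (r.2.2 : ℕ)) *
          c ^ (r.2.1 : ℕ) / ((r.2.1 : ℕ).factorial * (r.2.2 : ℕ).factorial)))
      (fun i r => (r.1 : ℕ) + (r.2.1 : ℕ)) (fun i r => (r.2.2 : ℕ)) (fun i' => (t i' : ℂ)) y
      X Z ρ hX hZ hρ (fun i' => by
        rw [Complex.norm_natCast]
        exact_mod_cast ht i') hy).trans ?_
    rw [← hN]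
    apply mul_le_mul_of_nonneg_left _ (by positivity)
    apply prod_le_prod
    · intro i _
      positivity
    · intro i _
      have h1 : ∑ r : Fin D × Fin T × Fin T, ‖(((Q (j i)).coeff r.1 : ℝ) : ℂ) *
          ((l i : ℂ) ^ ((r.2.1 : ℕ) + (r.2.2 : ℕ)) *
          c ^ (r.2.1 : ℕ) / ((r.2.1 : ℕ).factorial * (r.2.2 : ℕ).factorial))‖ *
          ((ρ * X) ^ ((r.1 : ℕ) + (r.2.1 : ℕ)) * (ρ ^ N * Z) ^ (r.2.2 : ℕ))
          = (∑ s ∈ range D, |(Q (j i)).coeff s| * (ρ * X) ^ s) *
            ((∑ m ∈ range T, (l i * (‖c‖ * (ρ * X))) ^ m / m.factorial) *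
            (∑ m ∈ range T, (l i * (ρ ^ N * Z)) ^ m / m.factorial)) := by
        rw [Finset.sum_range, Finset.sum_range, Finset.sum_range, Finset.sum_mul_sum,
          ← Finset.sum_product', Finset.sum_mul_sum, ← Finset.sum_product']
        apply sum_congr rfl
        intro r _
        simp only [norm_mul, norm_div, norm_pow, Complex.norm_natCast, Complex.norm_real,
          Real.norm_eq_abs, mul_pow, pow_add]
        field_simp
      rw [h1]
      refine mul_le_mul (binom_bound (j i) p hp (by positivity) D) ?_ (by positivity)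
        (by positivity)
      rw [mul_add, Real.exp_add]
      apply mul_le_mul
      · exact Real.sum_le_exp_of_nonneg (by positivity) T
      · exact Real.sum_le_exp_of_nonneg (by positivity) T
      · positivity
      · positivity
  have hlim2 : Filter.Tendsto (fun T => ‖(E T).det‖ * ρ ^ (N * (N - 1) / 2)) Filter.atTop
      (nhds (‖(Matrix.of fun i i' => ((t i').choose (j i) : ℂ) *
      Complex.exp (l i * (c * t i' + y i'))).det‖ *
        ρ ^ (N * (N - 1) / 2))) := (hlim.norm).mul_const _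
  exact le_of_tendsto' hlim2 hbound

end Pool.Agent.R623.AF
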