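import Pool.Agent.R497.TB.Defs

/-! TB-BCTRL (helper790): averages of a nonnegative function at the times `a p(m)` over boxes. -/

set_option autoImplicit false

namespace Pool.Agent.R790.TB

open MeasureTheory Filter Finset
open Pool.Agent.Y957.MC (IsFlow flowInv smo box bavg S_FLWB)
open Pool.Agent.R497.TB

universe u

variable {X : Type u} [MeasurableSpace X] {μ : Measure X}

theorem flow_scale {σ : ℝ → X → X} (h : IsFlow μ σ) (A : ℝ) : IsFlow μ fun t => σ (A * t) where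
  meas := by
    have h1 : Measurable fun p : ℝ × X => ((A * p.1, p.2) : ℝ × X) := by fun_prop
    exact h.meas.comp h1
  zero x := by simp only [mul_zero]; exact h.zero x
  add s t x := by
    have := h.add (A * s) (A * t) x
    simp only [mul_add]
    exact this
  mp t := h.mp (A * t)

theorem flowInv_scale (σ : ℝ → X → X) {A : ℝ} (hA : A ≠ 0) :
    flowInv (fun t => σ (A * t)) = flowInv σ := by
  unfold flowInv
  exact (mul_left_surjective₀ hA).iInf_comp fun t => MeasurableSpace.invariants (σ t)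

theorem orb_meas {τ : ℝ → X → X} (hτ : IsFlow μ τ) {g : X → ℝ} (hg : Measurable g) (x : X) :
    Measurable (fun r : ℝ => g (τ r x)) :=
  hg.comp (hτ.meas.comp (measurable_id.prodMk measurable_const))

/-- the two-sided averages -/
theorem two_sided (hF : S_FLWB.{u}) [IsProbabilityMeasure μ] {τ : ℝ → X → X} {e : X → ℝ}
    (hτ : IsFlow μ τ) (he : Measurable e) (hb : ∀ x, 0 ≤ e x ∧ e x ≤ 1) :
    ∀ᵐ x ∂μ, Tendsto (fun V : ℝ => (1 / V) * ∫ u in (-V)..V, e (τ u x)) atTop
      (nhds (2 * (μ[e | flowInv τ]) x)) := by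
  have hC : ∃ C, ∀ x, |e x| ≤ C := ⟨1, fun x => by rw [abs_of_nonneg (hb x).1]; exact (hb x).2⟩
  have a1 := hF X μ τ e hτ he hC
  have a2 := hF X μ (fun t => τ (-1 * t)) e (flow_scale hτ (-1)) he hC
  rw [flowInv_scale τ (by norm_num)] at a2
  filter_upwards [a1, a2] with x h1 h2
  have h3 := h1.add h2
  rw [← two_mul] at h3
  refine h3.congr fun V => ?_
  have hint : ∀ a b : ℝ, IntervalIntegrable (fun r : ℝ => e (τ r x)) volume a b := by
    intro a b
    refine (intervalIntegrable_const (c := (1 : ℝ))).mono_fun'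
      (orb_meas hτ he x).aestronglyMeasurable ?_
    filter_upwards with r
    rw [Real.norm_eq_abs, abs_of_nonneg (hb _).1]
    exact (hb _).2
  unfold smo
  rw [← mul_add]
  congr 1
  have h4 : ∫ r in (0 : ℝ)..V, e (τ (-1 * r) x) = ∫ r in (-V)..0, e (τ r x) := by
    have h5 := intervalIntegral.integral_comp_neg (a := (0 : ℝ)) (b := V) (fun r => e (τ r x))
    simp only [neg_zero] at h5
    rw [← h5]
    simp only [neg_one_mul]
  rw [h4, add_comm]
  exact intervalIntegral.integral_add_adjacent_intervals (hint _ _) (hint _ _)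

/-- the conclusion at the time `a` -/
def Concl {k : ℕ} (μ : Measure X) (τ : ℝ → X → X) (e : X → ℝ) (p : Fin k → Polynomial ℝ)
    (K : ℝ → ℝ) (a : ℝ) : Prop :=
  ∀ᵐ x ∂μ, ∀ ε : ℝ, 0 < ε →
      ∀ᶠ M in atTop, ravg M (fun m => e (τ (a * sep p m) x)) ≤ ε + K ε * (μ[e | flowInv τ]) x

theorem t_BCTRL (h1 : S_BCT1.{u}) (h2 : S_BCT2) (hF : S_FLWB.{u}) : S_BCTRL.{u} := by
  intro k d p hk hp
  obtain ⟨K, hK, h2⟩ := h2 k d p hk hp
  refine ⟨K, hK, ?_⟩
  intro X _ μ _ τ e hτ he hb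
  -- the times in `[1, 2]`
  have base : ∀ τ : ℝ → X → X, IsFlow μ τ → ∀ᵐ a : ℝ, a ∈ Set.Icc (1 : ℝ) 2 → Concl μ τ e p K a := by
    intro τ hτ
    have h3 := h1 X μ τ e k d p hτ he hb hk hp
    rw [ae_restrict_iff' measurableSet_Icc] at h3
    filter_upwards [h3] with a ha ham
    unfold Concl
    filter_upwards [ha ham, two_sided hF hτ he hb] with x hx hx2
    refine h2 (fun u => e (τ u x)) ((μ[e | flowInv τ]) x) a (orb_meas hτ he x) (fun u => hb _)
      ham.1 ham.2 hx2 ?_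
    intro i j η hη
    obtain ⟨T₁, hT⟩ := hx i j η hη
    refine ⟨T₁, fun t ht1 ht2 => ?_⟩
    have h4 := hT t ht1 ht2
    simp only [smo, ← hτ.add] at h4
    exact h4
  -- all the times
  have key : ∀ A : ℝ, A ≠ 0 → ∀ᵐ a : ℝ, A⁻¹ * a ∈ Set.Icc (1 : ℝ) 2 → Concl μ τ e p K a := by
    intro A hA
    have h3 : ∀ᵐ b : ℝ, b ∈ Set.Icc (1 : ℝ) 2 → Concl μ τ e p K (A * b) := by
      filter_upwards [base (fun t => τ (A * t)) (flow_scale hτ A)] with b hb hbm
      have h4 := hb hbm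
      unfold Concl at h4 ⊢
      rw [flowInv_scale τ hA] at h4
      simp only [← mul_assoc] at h4
      exact h4
    have h4 := (Measure.quasiMeasurePreserving_smul (volume : Measure ℝ) (inv_ne_zero hA)).ae h3
    filter_upwards [h4] with a ha hm
    have h5 := ha (by simpa only [smul_eq_mul] using hm)
    simpa only [smul_eq_mul, mul_inv_cancel_left₀ hA] using h5
  have h5 : ∀ᵐ a : ℝ, ∀ i : ℤ, (((2 : ℝ) ^ i)⁻¹ * a ∈ Set.Icc (1 : ℝ) 2 → Concl μ τ e p K a) ∧
      ((-(2 : ℝ) ^ i)⁻¹ * a ∈ Set.Icc (1 : ℝ) 2 → Concl μ τ e p K a) := by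
    rw [ae_all_iff]
    intro i
    have h6 : (2 : ℝ) ^ i ≠ 0 := by positivity
    filter_upwards [key _ h6, key _ (neg_ne_zero.2 h6)] with a ha hb
    exact ⟨ha, hb⟩
  have h0 : ∀ᵐ a : ℝ, a ≠ 0 := by
    rw [ae_iff]
    simp
  filter_upwards [h5, h0] with a ha ha0
  obtain ⟨i, hi⟩ := exists_mem_Ico_zpow (abs_pos.2 ha0) (one_lt_two : (1 : ℝ) < 2)
  have hp : (0 : ℝ) < 2 ^ i := by positivity
  have hi2 : |a| < 2 * 2 ^ i := by
    have := hi.2
    rw [zpow_add_one₀ (by norm_num)] at this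
    linarith
  have hmem : ((2 : ℝ) ^ i)⁻¹ * |a| ∈ Set.Icc (1 : ℝ) 2 := by
    constructor
    · rw [inv_mul_eq_div, le_div_iff₀ hp, one_mul]
      exact hi.1
    · rw [inv_mul_eq_div, div_le_iff₀ hp]
      exact hi2.le
  have hfin : Concl μ τ e p K a := by
    rcases lt_or_gt_of_ne ha0 with hneg | hpos
    · refine (ha i).2 ?_
      rw [abs_of_neg hneg] at hmem
      rw [inv_neg, neg_mul_comm]
      exact hmem
    · refine (ha i).1 ?_
      rw [abs_of_pos hpos] at hmem
      exact hmem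
  exact hfin

end Pool.Agent.R790.TB
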